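import Mathlib

set_option autoImplicit false

/-!
# A small-step model whose decoupling depends on the time variable
-/

namespace Pool.Agent.Results.MP_29028a_co.DependsOnTime

open Polynomial

/-- A weighted non-singular small-step model with a starting point `(p, q)`. -/
structure Model where
  /-- the step set -/
  S : Finset (ℤ × ℤ)
  small : ∀ s ∈ S, s ≠ (0, 0) ∧ -1 ≤ s.1 ∧ s.1 ≤ 1 ∧ -1 ≤ s.2 ∧ s.2 ≤ 1
  /-- the weights -/
  w : ℤ × ℤ → ℝ
  w_pos : ∀ s ∈ S, 0 < w s
  /-- every line through the origin has a step strictly on each side -/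
  nonsingular : ∀ a b : ℝ, (a ≠ 0 ∨ b ≠ 0) →
    (∃ s ∈ S, 0 < a * s.1 + b * s.2) ∧ (∃ s ∈ S, a * s.1 + b * s.2 < 0)
  p : ℕ
  q : ℕ
  p_pos : 0 < p

/-- The step polynomial `P(x,y) = ∑ w_(i,j) x^i y^j` over the complex numbers. -/
noncomputable def Model.P (M : Model) (x y : ℂ) : ℂ :=
  ∑ s ∈ M.S, (M.w s : ℂ) * x ^ s.1 * y ^ s.2

/-- `P(1,1)`, the sum of the weights. -/
noncomputable def Model.total (M : Model) : ℝ := ∑ s ∈ M.S, M.w s

/-- The model decouples at `t`: there are rational functions `R₁ = a/b`, `R₂ = c/d` with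
`x^p y^q = R₁(x) + R₂(y)` on the curve `1 - t P(x,y) = 0` (away from the poles of `R₁, R₂`). -/
def Model.DecouplesAt (M : Model) (t : ℝ) : Prop :=
  ∃ a b c d : ℂ[X], b ≠ 0 ∧ d ≠ 0 ∧
    ∀ x y : ℂ, x ≠ 0 → y ≠ 0 → 1 - (t : ℂ) * M.P x y = 0 → b.eval x ≠ 0 → d.eval y ≠ 0 →
      x ^ M.p * y ^ M.q = a.eval x / b.eval x + c.eval y / d.eval y

/-- The weights of the model. -/
noncomputable def wt (s : ℤ × ℤ) : ℝ :=
  if s = (1, 1) then 16 else if s = (1, 0) ∨ s = (0, 1) then 88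
  else if s = (1, -1) ∨ s = (-1, 1) then 40 else 93

/-- The model. -/
noncomputable def M0 : Model where
  S := {(1, 1), (1, 0), (0, 1), (1, -1), (-1, 1), (-1, -1)}
  small := by decide
  w := wt
  w_pos := by
    intro s _
    unfold wt
    split_ifs <;> norm_num
  nonsingular := by
    have key : ∀ a b : ℝ, (a ≠ 0 ∨ b ≠ 0) →
        ∃ s ∈ ({(1, 1), (1, 0), (0, 1), (1, -1), (-1, 1), (-1, -1)} : Finset (ℤ × ℤ)),
          0 < a * s.1 + b * s.2 := by
      intro a b h
      by_cases ha : 0 < a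
      · exact ⟨(1, 0), by decide, by simpa using ha⟩
      · by_cases hb : 0 < b
        · exact ⟨(0, 1), by decide, by simpa using hb⟩
        · refine ⟨(-1, -1), by decide, ?_⟩
          push_cast
          rcases h with h | h
          · have : a < 0 := lt_of_le_of_ne (not_lt.1 ha) h
            linarith [not_lt.1 hb]
          · have : b < 0 := lt_of_le_of_ne (not_lt.1 hb) h
            linarith [not_lt.1 ha]
    intro a b h
    refine ⟨key a b h, ?_⟩
    obtain ⟨s, hs, h'⟩ := key (-a) (-b) (by simpa using h)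
    exact ⟨s, hs, by linarith⟩
  p := 1
  q := 1
  p_pos := one_pos

theorem P_eq (x y : ℂ) (hx : x ≠ 0) (hy : y ≠ 0) :
    x * y * M0.P x y = 16 * x ^ 2 * y ^ 2 + 88 * x ^ 2 * y + 88 * x * y ^ 2 + 40 * x ^ 2 +
      40 * y ^ 2 + 93 := by
  have h : M0.P x y = ((16 : ℝ) : ℂ) * x ^ (1 : ℤ) * y ^ (1 : ℤ) +
      (((88 : ℝ) : ℂ) * x ^ (1 : ℤ) * y ^ (0 : ℤ) + (((88 : ℝ) : ℂ) * x ^ (0 : ℤ) * y ^ (1 : ℤ) +
      (((40 : ℝ) : ℂ) * x ^ (1 : ℤ) * y ^ (-1 : ℤ) + (((40 : ℝ) : ℂ) * x ^ (-1 : ℤ) * y ^ (1 : ℤ) +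
      ((93 : ℝ) : ℂ) * x ^ (-1 : ℤ) * y ^ (-1 : ℤ))))) := by
    unfold Model.P M0
    simp only
    rw [Finset.sum_insert (by decide), Finset.sum_insert (by decide),
      Finset.sum_insert (by decide), Finset.sum_insert (by decide),
      Finset.sum_insert (by decide), Finset.sum_singleton]
    simp [wt]
  rw [h]
  simp only [zpow_one, zpow_zero, zpow_neg]
  push_cast
  field_simp
  ring

theorem total_eq : M0.total = 365 := by
  unfold Model.total M0
  simp only
  rw [Finset.sum_insert (by decide), Finset.sum_insert (by decide),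
      Finset.sum_insert (by decide), Finset.sum_insert (by decide),
      Finset.sum_insert (by decide), Finset.sum_singleton]
  simp [wt]
  norm_num

theorem kernel_iff (t : ℝ) (x y : ℂ) (hx : x ≠ 0) (hy : y ≠ 0) :
    1 - (t : ℂ) * M0.P x y = 0 ↔
      x * y - (t : ℂ) * (16 * x ^ 2 * y ^ 2 + 88 * x ^ 2 * y + 88 * x * y ^ 2 + 40 * x ^ 2 +
      40 * y ^ 2 + 93) = 0 := by
  rw [← P_eq x y hx hy]
  have : x * y - (t : ℂ) * (x * y * M0.P x y) = x * y * (1 - (t : ℂ) * M0.P x y) := by ring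
  rw [this, mul_eq_zero]
  constructor
  · intro h; exact Or.inr h
  · rintro (h | h)
    · exact absurd h (mul_ne_zero hx hy)
    · exact h

theorem decouples : M0.DecouplesAt (1 / 368) := by
  refine ⟨C (-103 / 8) + (C (113 / 4) - C 5 * X) * (X + C (1 / 2)), X + C (1 / 2),
    C (-103 / 8) - C 5 * X * (X + C (1 / 2)), X + C (1 / 2), X_add_C_ne_zero _,
    X_add_C_ne_zero _, ?_⟩
  intro x y hx hy hK hb hd
  rw [kernel_iff _ x y hx hy] at hK
  simp only [eval_add, eval_X, eval_C, eval_mul, eval_sub] at hb hd ⊢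
  push_cast at hK
  have e : (x ^ M0.p * y ^ M0.q : ℂ) = x * y := by simp [M0]
  rw [e, div_add_div _ _ hb hd, eq_div_iff (mul_ne_zero hb hd)]
  linear_combination (-23 : ℂ) * hK

/-- The finitely many values excluded by the roots of a polynomial. -/
theorem finite_image (b : ℂ[X]) (hb : b ≠ 0) (f : ℂ → ℂ) :
    (f '' {z | b.eval z = 0}).Finite := by
  apply Set.Finite.image
  have : {z | b.eval z = 0} = b.rootSet ℂ ∪ ∅ := by
    ext z
    simp [Polynomial.mem_rootSet, hb]
  rw [this, Set.union_empty]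
  exact Polynomial.rootSet_finite b ℂ

theorem sqrt_exists (z : ℂ) : ∃ s : ℂ, s ^ 2 = z := by
  obtain ⟨s, hs⟩ := IsAlgClosed.exists_pow_nat_eq z (n := 2) (by norm_num)
  exact ⟨s, hs⟩

theorem not_decouples : ¬ M0.DecouplesAt (7 / 45012) := by
  rintro ⟨a, b, c, d, hb, hd, h⟩
  -- the functions with `f x = g y` on the curve
  let f : ℂ → ℂ := fun x => (x ^ 2 + 93 / 40) / (x + 7 / 220)
  let g : ℂ → ℂ := fun y => -(88 * y ^ 2 - 45012 / 7 * y) / (16 * y ^ 2 + 88 * y + 40)
  -- polynomials whose roots are excluded for the parameter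
  let dx : ℂ[X] := X ^ 2 - C 4 * (C (93 / 40) - C (7 / 220) * X)
  let dy : ℂ[X] := (C 88 * X - C (45012 / 7)) ^ 2 - C 160 * X * (C 88 + C 16 * X)
  have hdx : dx ≠ 0 := by
    intro h0
    have := congrArg (Polynomial.eval 0) h0
    simp [dx] at this
  have hdy : dy ≠ 0 := by
    intro h0
    have := congrArg (Polynomial.eval 0) h0
    simp [dy] at this
  have hfin : ((f '' {z | b.eval z = 0}) ∪ (g '' {z | d.eval z = 0}) ∪
      (id '' {z | dx.eval z = 0}) ∪ (id '' {z | dy.eval z = 0}) ∪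
      {(-88 : ℂ) / 16, f 0, 0}).Finite :=
    ((((finite_image b hb f).union (finite_image d hd g)).union
      (finite_image dx hdx id)).union (finite_image dy hdy id)).union (Set.toFinite _)
  obtain ⟨u, hu⟩ := hfin.exists_notMem
  simp only [Set.mem_union, not_or, Set.mem_insert_iff, Set.mem_singleton_iff] at hu
  obtain ⟨⟨⟨⟨hu1, hu2⟩, hu3⟩, hu4⟩, hu5, hu6, hu7⟩ := hu
  -- the two preimages of `u` in `x`
  obtain ⟨s, hs⟩ := sqrt_exists (u ^ 2 - 4 * (93 / 40 - 7 / 220 * u))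
  obtain ⟨r, hr⟩ := sqrt_exists ((88 * u - 45012 / 7) ^ 2 - 160 * u * (88 + 16 * u))
  have hs0 : s ≠ 0 := by
    rintro rfl
    apply hu3
    refine ⟨u, ?_, rfl⟩
    simp only [Set.mem_ofPred_eq, dx, eval_sub, eval_mul, eval_pow, eval_X, eval_C]
    rw [← hs]; ring
  have hr0 : r ≠ 0 := by
    rintro rfl
    apply hu4
    refine ⟨u, ?_, rfl⟩
    simp only [Set.mem_ofPred_eq, dy, eval_sub, eval_mul, eval_pow, eval_X, eval_C, eval_add]
    rw [← hr]; ring
  have hq : (88 + 16 * u : ℂ) ≠ 0 := by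
    intro h0
    apply hu5
    field_simp
    linear_combination h0
  -- properties of solutions of `f x = u`, `g y = u`
  have hx : ∀ x : ℂ, x ^ 2 + 93 / 40 = u * (x + 7 / 220) → x ≠ 0 ∧ b.eval x ≠ 0 := by
    intro x hx
    have h1 : x + 7 / 220 ≠ 0 := by
      intro h0
      have e : x = -7 / 220 := by linear_combination h0
      rw [h0, e] at hx
      norm_num at hx
    have h2 : f x = u := by
      simp only [f]
      rw [div_eq_iff h1, hx]
    constructor
    · rintro rfl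
      exact hu6 h2.symm
    · intro h3
      exact hu1 ⟨x, h3, h2⟩
  have hy : ∀ y : ℂ, (88 * y ^ 2 - 45012 / 7 * y) + u * (16 * y ^ 2 + 88 * y + 40) = 0 →
      y ≠ 0 ∧ d.eval y ≠ 0 := by
    intro y hy
    have h1 : 16 * y ^ 2 + 88 * y + 40 ≠ 0 := by
      intro h0
      rw [h0, mul_zero, add_zero] at hy
      have h3 : (2 * y + 1) * (y + 5) = 0 := by linear_combination (1 / 8 : ℂ) * h0
      rcases mul_eq_zero.1 h3 with h4 | h4
      · have e : y = -1 / 2 := by linear_combination (1 / 2 : ℂ) * h4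
        rw [e] at hy
        norm_num at hy
      · have e : y = -5 := by linear_combination h4
        rw [e] at hy
        norm_num at hy
    have h2 : g y = u := by
      simp only [g]
      rw [div_eq_iff h1]
      linear_combination -hy
    constructor
    · rintro rfl
      apply hu7
      norm_num at hy
      exact hy
    · intro h3
      exact hu2 ⟨y, h3, h2⟩
  have hxe : ∀ e : ℂ, e ^ 2 = 1 → ((u + e * s) / 2) ^ 2 + 93 / 40 =
      u * ((u + e * s) / 2 + 7 / 220) := by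
    intro e he
    linear_combination (1 / 4 : ℂ) * hs + (s ^ 2 / 4) * he
  have hye : ∀ e : ℂ, e ^ 2 = 1 →
      (88 * ((45012 / 7 - 88 * u + e * r) / (2 * (88 + 16 * u))) ^ 2 -
        45012 / 7 * ((45012 / 7 - 88 * u + e * r) / (2 * (88 + 16 * u)))) +
      u * (16 * ((45012 / 7 - 88 * u + e * r) / (2 * (88 + 16 * u))) ^ 2 +
        88 * ((45012 / 7 - 88 * u + e * r) / (2 * (88 + 16 * u))) + 40) = 0 := by
    intro e he
    have h1 : ∀ y : ℂ, (88 * y ^ 2 - 45012 / 7 * y) + u * (16 * y ^ 2 + 88 * y + 40) =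
        (88 + 16 * u) * y ^ 2 + (88 * u - 45012 / 7) * y + 40 * u := fun y => by ring
    rw [h1]
    field_simp
    linear_combination (49 : ℂ) * hr + (49 * r ^ 2) * he
  -- the identity at a point of the curve
  have key : ∀ x y : ℂ, x ^ 2 + 93 / 40 = u * (x + 7 / 220) →
      (88 * y ^ 2 - 45012 / 7 * y) + u * (16 * y ^ 2 + 88 * y + 40) = 0 →
      x * y = a.eval x / b.eval x + c.eval y / d.eval y := by
    intro x y h1 h2
    obtain ⟨hx0, hbx⟩ := hx x h1
    obtain ⟨hy0, hdy⟩ := hy y h2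
    have hK : 1 - ((7 / 45012 : ℝ) : ℂ) * M0.P x y = 0 := by
      rw [kernel_iff _ x y hx0 hy0]
      push_cast
      linear_combination (-(7 : ℂ) / 45012) * ((16 * y ^ 2 + 88 * y + 40) * h1 +
        (x + 7 / 220) * h2)
    have := h x y hx0 hy0 hK hbx hdy
    simpa [M0] using this
  have e1 : (1 : ℂ) ^ 2 = 1 := by norm_num
  have e2 : (-1 : ℂ) ^ 2 = 1 := by norm_num
  set x1 : ℂ := (u + 1 * s) / 2 with hx1
  set x2 : ℂ := (u + -1 * s) / 2 with hx2
  set y1 : ℂ := (45012 / 7 - 88 * u + 1 * r) / (2 * (88 + 16 * u)) with hy1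
  set y2 : ℂ := (45012 / 7 - 88 * u + -1 * r) / (2 * (88 + 16 * u)) with hy2
  have k11 := key x1 y1 (hxe 1 e1) (hye 1 e1)
  have k12 := key x1 y2 (hxe 1 e1) (hye (-1) e2)
  have k21 := key x2 y1 (hxe (-1) e2) (hye 1 e1)
  have k22 := key x2 y2 (hxe (-1) e2) (hye (-1) e2)
  have hprod : (x1 - x2) * (y1 - y2) = 0 := by
    have : (x1 - x2) * (y1 - y2) = x1 * y1 - x1 * y2 - x2 * y1 + x2 * y2 := by ring
    rw [this, k11, k12, k21, k22]
    ring
  have hxd : x1 - x2 = s := by rw [hx1, hx2]; ring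
  have hyd : y1 - y2 = r / (88 + 16 * u) := by
    rw [hy1, hy2]; field_simp; ring
  rw [hxd, hyd] at hprod
  rcases mul_eq_zero.1 hprod with h1 | h1
  · exact hs0 h1
  · exact (div_ne_zero hr0 hq) h1

/-- There is a non-singular small-step model which decouples at one value of `t` in
`(0, 1 / P(1,1))` but not at another one. -/
theorem result : ∃ (M : Model) (t₁ t₂ : ℝ), (0 < t₁ ∧ t₁ < 1 / M.total) ∧
    (0 < t₂ ∧ t₂ < 1 / M.total) ∧ M.DecouplesAt t₁ ∧ ¬ M.DecouplesAt t₂ := by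
  refine ⟨M0, 1 / 368, 7 / 45012, ?_, ?_, decouples, not_decouples⟩
  · rw [total_eq]; norm_num
  · rw [total_eq]; norm_num

end Pool.Agent.Results.MP_29028a_co.DependsOnTime
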